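import Mathlib
import Pool.Agent.Zk12.GT.Fin
import Pool.Agent.Zk95.TD.Ex

/-!
# A non-isotrivial family of branch points over `ℚ(t_1, …, t_n)` (project GT)

The points `e_i + h_m` where the `e_i` are integers with `CrossRatio` and `Progressions` and
`h = (0, t_1, …, t_n)`.
-/

set_option autoImplicit false
set_option linter.all false

namespace Pool.Agent.Zk81.GT

open Pool.Agent.Zk12.GT Pool.Agent.Zk95.TD

/-- the shifts `0, t_1, …, t_n` -/
def shift {R : Type} [Zero R] {n : ℕ} (t : Fin n → R) : Fin (n + 1) → R := Fin.cons 0 t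

/-- the points `e_i + h_m`, where `h_0 = 0` and `h_m = t_m` for `1 ≤ m ≤ n` -/
def shifted {K : Type} {k₁ : Type} [Field k₁] {n : ℕ} (e : K → ℤ) (t : Fin n → k₁) :
    K × Fin (n + 1) → k₁ := fun p => (e p.1 : k₁) + shift t p.2

section

variable {n : ℕ} {k₁ : Type} [Field k₁] [Algebra ℚ k₁] {t : Fin n → k₁}

/-- polynomials which are squares in the field of rational functions are squares -/
theorem sq_desc (h1 : AlgebraicIndependent ℚ t)
    (h2 : IntermediateField.adjoin ℚ (Set.range t) = ⊤) (P : MvPolynomial (Fin n) ℚ)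
    (h : IsSquare (MvPolynomial.aeval t P)) : IsSquare P := by
  obtain ⟨r, hr⟩ := h
  have hr' : r ∈ IntermediateField.adjoin ℚ (Set.range t) := by
    rw [h2]
    exact IntermediateField.mem_top
  obtain ⟨A, B, hAB⟩ := (IntermediateField.mem_adjoin_range_iff ℚ t r).1 hr'
  by_cases hB : B = 0
  · rw [hB, map_zero, div_zero] at hAB
    rw [hAB, mul_zero] at hr
    have h3 : P = 0 := h1 (by rw [hr, map_zero])
    exact ⟨0, by rw [h3, mul_zero]⟩
  · have hB' : MvPolynomial.aeval t B ≠ 0 := by
      intro h3
      exact hB (h1 (by rw [h3, map_zero]))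
    have h3 : A ^ 2 = P * B ^ 2 := by
      apply h1
      rw [map_pow, map_mul, map_pow, hr, hAB]
      field_simp
    have h4 : B ^ 2 ∣ A ^ 2 := ⟨P, by rw [h3, mul_comm]⟩
    have h5 : B ∣ A := (IsIntegrallyClosed.pow_dvd_pow_iff two_ne_zero).1 h4
    obtain ⟨R, rfl⟩ := h5
    refine ⟨R, ?_⟩
    have h6 : B ^ 2 * (R * R) = B ^ 2 * P := by
      rw [mul_comm _ P, ← h3]
      ring
    exact (mul_left_cancel₀ (pow_ne_zero 2 hB) h6).symm

/-- an integer which is not a square is not a square in the field of rational functions -/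
theorem int_not_sq (h1 : AlgebraicIndependent ℚ t)
    (h2 : IntermediateField.adjoin ℚ (Set.range t) = ⊤) {N : ℤ} (hN : ¬ IsSquare N) :
    ¬ IsSquare (N : k₁) := by
  intro h
  apply hN
  have h3 : IsSquare (MvPolynomial.C (N : ℚ) : MvPolynomial (Fin n) ℚ) := by
    apply sq_desc h1 h2
    rw [MvPolynomial.aeval_C, map_intCast]
    exact h
  have h4 := h3.map (MvPolynomial.eval (0 : Fin n → ℚ))
  rw [MvPolynomial.eval_C] at h4
  exact Rat.isSquare_intCast_iff.1 h4

/-- polynomials of degree two in `t_m - t_m'` with two rational roots are not squares -/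
theorem prod_not_sq (h1 : AlgebraicIndependent ℚ t)
    (h2 : IntermediateField.adjoin ℚ (Set.range t) = ⊤) {m m' : Fin (n + 1)} (hm : m ≠ m')
    {c a b : ℤ} (hc : c ≠ 0) (hab : a ≠ b) :
    ¬ IsSquare ((c : k₁) * (((shift t m' - shift t m) + a) * ((shift t m' - shift t m) + b))) := by
  intro h
  let H : Fin (n + 1) → MvPolynomial (Fin n) ℚ := shift MvPolynomial.X
  have hH : ∀ i, MvPolynomial.aeval t (H i) = shift t i := by
    intro i
    induction i using Fin.cases with
    | zero => simp [H, shift]
    | succ i => simp [H, shift]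
  have h3 : IsSquare ((MvPolynomial.C (c : ℚ) : MvPolynomial (Fin n) ℚ) *
      (((H m' - H m) + MvPolynomial.C (a : ℚ)) * ((H m' - H m) + MvPolynomial.C (b : ℚ)))) := by
    apply sq_desc h1 h2
    simp only [map_mul, map_add, map_sub, hH, MvPolynomial.aeval_C, map_intCast]
    exact h
  -- all the values of `H m' - H m` are taken
  have h4 : ∀ v : ℚ, ∃ τ : Fin n → ℚ, MvPolynomial.eval τ (H m') - MvPolynomial.eval τ (H m) = v := by
    intro v
    have h5 : ∀ (τ : Fin n → ℚ) (i : Fin (n + 1)), MvPolynomial.eval τ (H i) = shift τ i := by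
      intro τ i
      induction i using Fin.cases with
      | zero => simp [H, shift]
      | succ i => simp [H, shift]
    simp only [h5]
    induction m using Fin.cases with
    | zero =>
      induction m' using Fin.cases with
      | zero => exact absurd rfl hm
      | succ j =>
        refine ⟨fun _ => v, ?_⟩
        simp [shift]
    | succ i =>
      induction m' using Fin.cases with
      | zero =>
        refine ⟨fun _ => -v, ?_⟩
        simp [shift]
      | succ j =>
        have hij : i ≠ j := fun h => hm (by rw [h])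
        refine ⟨Pi.single j v, ?_⟩
        simp [shift, Pi.single_eq_of_ne hij]
  have h5 : ∀ v : ℚ, 0 ≤ (c : ℚ) * ((v + a) * (v + b)) := by
    intro v
    obtain ⟨τ, hτ⟩ := h4 v
    have h6 := h3.map (MvPolynomial.eval τ)
    simp only [map_mul, map_add, map_sub, MvPolynomial.eval_C, hτ] at h6
    obtain ⟨r, hr⟩ := h6
    rw [hr]
    exact mul_self_nonneg r
  have hab' : (a : ℚ) ≠ b := by exact_mod_cast hab
  have hc' : (c : ℚ) ≠ 0 := by exact_mod_cast hc
  have h6 := h5 (-((a : ℚ) + b) / 2)
  have h7 := h5 (|(a : ℚ)| + |(b : ℚ)| + 1)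
  have h8 : ((-((a : ℚ) + b) / 2 + a) * (-((a : ℚ) + b) / 2 + b)) < 0 := by
    have h9 : 0 < ((a : ℚ) - b) ^ 2 := by
      have := sub_ne_zero.2 hab'
      positivity
    nlinarith
  have h9 : 0 < ((|(a : ℚ)| + |(b : ℚ)| + 1 + a) * (|(a : ℚ)| + |(b : ℚ)| + 1 + b)) := by
    apply mul_pos
    · linarith [neg_abs_le (a : ℚ), abs_nonneg (b : ℚ)]
    · linarith [neg_abs_le (b : ℚ), abs_nonneg (a : ℚ)]
  rcases lt_or_gt_of_ne hc' with h | h
  · exact absurd h7 (not_le.2 (mul_neg_of_neg_of_pos h h9))
  · exact absurd h6 (not_le.2 (mul_neg_of_pos_of_neg h h8))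

theorem shift_injective (h1 : AlgebraicIndependent ℚ t) {m m' : Fin (n + 1)} (hm : m ≠ m') (a : ℤ) :
    shift t m' - shift t m ≠ (a : k₁) := by
  intro h
  let H : Fin (n + 1) → MvPolynomial (Fin n) ℚ := shift MvPolynomial.X
  have hH : ∀ i, MvPolynomial.aeval t (H i) = shift t i := by
    intro i
    induction i using Fin.cases with
    | zero => simp [H, shift]
    | succ i => simp [H, shift]
  have h3 : H m' - H m = MvPolynomial.C (a : ℚ) := by
    apply h1
    rw [map_sub, hH, hH, h, MvPolynomial.aeval_C, map_intCast]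
  have h5 : ∀ (τ : Fin n → ℚ), shift τ m' - shift τ m = (a : ℚ) := by
    intro τ
    have h5 : ∀ (τ : Fin n → ℚ) (i : Fin (n + 1)), MvPolynomial.eval τ (H i) = shift τ i := by
      intro τ i
      induction i using Fin.cases with
      | zero => simp [H, shift]
      | succ i => simp [H, shift]
    rw [← h5, ← h5, ← map_sub, h3, MvPolynomial.eval_C]
  induction m using Fin.cases with
  | zero =>
    induction m' using Fin.cases with
    | zero => exact absurd rfl hm
    | succ j =>
      have h6 := h5 (fun _ => (a : ℚ) + 1)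
      simp [shift] at h6
  | succ i =>
    induction m' using Fin.cases with
    | zero =>
      have h6 := h5 (fun _ => -((a : ℚ) + 1))
      simp [shift] at h6
    | succ j =>
      have hij : i ≠ j := fun h => hm (by rw [h])
      have h6 := h5 (Pi.single j ((a : ℚ) + 1))
      simp [shift, Pi.single_eq_of_ne hij] at h6

variable {K : Type} {e : K → ℤ}

theorem shifted_injective (h1 : AlgebraicIndependent ℚ t) (he : Function.Injective e) :
    Function.Injective (shifted e t) := by
  haveI : CharZero k₁ := algebraRat.charZero k₁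
  rintro ⟨i, m⟩ ⟨j, m'⟩ h
  simp only [shifted] at h
  by_cases hm : m = m'
  · subst hm
    have h3 : (e i : k₁) = e j := add_right_cancel h
    rw [he (Int.cast_injective h3)]
  · exfalso
    apply shift_injective h1 hm (e i - e j)
    push_cast
    linear_combination -h

theorem even_card [Fintype K] (h : Even (Fintype.card K)) :
    Even (Fintype.card (K × Fin (n + 1))) := by
  rw [Fintype.card_prod]
  exact h.mul_right _

/-- **Progressions** for the points `e_i + h_m` -/
theorem progressionsK_shifted (hP : Progressions e) : ProgressionsK (shifted e t) := by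
  haveI : CharZero k₁ := algebraRat.charZero k₁
  rintro ⟨i, m⟩
  obtain ⟨l, z, δ, hδ, hl, hAP⟩ := hP i
  refine ⟨fun j => (l j, m), algebraMap ℚ k₁ z, algebraMap ℚ k₁ δ, ?_, ?_, ?_⟩
  · exact (_root_.map_ne_zero _).2 hδ
  · intro j h
    exact hl j (congrArg Prod.fst h)
  · intro j
    have h3 := congrArg (algebraMap ℚ k₁) (hAP j)
    simp only [map_inv₀, map_sub, map_intCast, map_add, map_mul, map_natCast] at h3
    simp only [shifted]
    rw [← h3]
    congr 1
    ring

/-- **CrossRatio** for the points `e_i + h_m` -/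
theorem crossRatioK_shifted (h1 : AlgebraicIndependent ℚ t)
    (h2 : IntermediateField.adjoin ℚ (Set.range t) = ⊤) (he : Function.Injective e)
    (hC : CrossRatio e) (hP : Progressions e) : CrossRatioK (shifted e t) := by
  haveI : CharZero k₁ := algebraRat.charZero k₁
  rintro ⟨i, m⟩ ⟨j, m'⟩ hij
  by_cases hm : m = m'
  · subst hm
    have hij' : i ≠ j := fun h => hij (by rw [h])
    obtain ⟨l, l', h3, h4, h5, h6, h7⟩ := hC i j hij'
    refine ⟨(l, m), (l', m), fun h => h3 (congrArg Prod.fst h), fun h => h4 (congrArg Prod.fst h),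
      fun h => h5 (congrArg Prod.fst h), fun h => h6 (congrArg Prod.fst h), ?_⟩
    have h8 := int_not_sq h1 h2 h7
    intro h9
    apply h8
    convert h9 using 1
    simp only [shifted]
    push_cast
    ring
  · obtain ⟨l, z, δ, hδ, hl, hAP⟩ := hP i
    have hne : e (l 0) ≠ e (l 1) := by
      intro h
      have h3 := hAP 0
      have h4 := hAP 1
      rw [← h, h3] at h4
      apply hδ
      simpa using h4
    refine ⟨(l 0, m), (l 1, m), fun h => hl 0 (congrArg Prod.fst h),
      fun h => hm (congrArg Prod.snd h), fun h => hl 1 (congrArg Prod.fst h),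
      fun h => hm (congrArg Prod.snd h), ?_⟩
    have hc : (e i - e (l 0)) * (e i - e (l 1)) ≠ 0 := by
      apply mul_ne_zero
      · exact sub_ne_zero.2 fun h => hl 0 (he h).symm
      · exact sub_ne_zero.2 fun h => hl 1 (he h).symm
    have h8 := prod_not_sq h1 h2 hm hc (a := e j - e (l 0)) (b := e j - e (l 1))
      (fun h => hne (by linarith))
    intro h9
    apply h8
    convert h9 using 1
    simp only [shifted]
    push_cast
    ring

end

end Pool.Agent.Zk81.GT
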